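import Pool.Agent.Helper855N.Scales

/-!
# A metric theorem on primes in short intervals: the primes after `u n + α * t n` and after `t n ^ α`

Let `t n` be an arbitrary nondecreasing unbounded sequence of reals with `t (n + 1) ≤ t n ^ β` for some `β`, and let
`u n ≥ 0` be arbitrary with `u n ^ ω ≤ t n` (for instance `u n = 0`, or `t n = u n ^ ω`). For almost every real
`α > 0` the primes after the points `x = u n + α * t n`, and also those after the points `x = t n ^ α`, behave as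
follows for a proportion of the `n`; the proportion is a lower density with respect to the weights
`log log t (n + 1) - log log t n` (for `t n = b ^ n` this is the logarithmic density).

* Proportion `≥ 1 - η`: at all but `K` dyadic scales `D`, `log x ≤ D ≤ x ^ θ`, the primes have a constant density
  `lam / log x`, `0 ≤ lam ≤ Λ`, on `[x - D, x + D]`, up to an error `δ D / log x`. Here `0 < θ < ω ≤ 1`, `θ < 1` and
  `η, δ > 0` are arbitrary, `Λ = Λ(θ, ω, η)` and `K = K(θ, ω, η, δ)` do not depend on the sequences.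
* Proportion `≥ κ > 0`: the same with `0 < c₁ ≤ lam ≤ c₂`, for every `θ < 1` and some `ω = ω(θ) < 1`.
* Proportion `≥ κ > 0`: `c H / log x ≤ π(x, H) ≤ C H / log x` for ALL `H` with `L log x ≤ H ≤ x ^ θ` at once.
-/

set_option autoImplicit false

open Finset Filter MeasureTheory

namespace Pool.Agent.Results.MP_31d0eb_nt.AlmostEveryDilate

/-- `π(x, H)`: the number of primes `p` with `x < p ≤ x + H` -/
noncomputable def primesAfter (x H : ℝ) : ℕ := ((Finset.Ioc ⌊x⌋₊ ⌊x + H⌋₊).filter Nat.Prime).card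

/-- the pairs of sequences which are allowed -/
structure Admissible (ω : ℝ) (t u : ℕ → ℝ) : Prop where
  mono : Monotone t
  three : ∀ n, 3 ≤ t n
  top : Tendsto t atTop atTop
  step : ∃ β : ℝ, ∀ n, t (n + 1) ≤ t n ^ β
  nonneg : ∀ n, 0 ≤ u n
  small : ∀ n, u n ^ ω ≤ t n

open Classical in
/-- the lower density of `S` with respect to the weights `log log t (n + 1) - log log t n` is at least `κ` -/
def LowerDensity (t : ℕ → ℝ) (κ : ℝ) (S : Set ℕ) : Prop :=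
  ∀ ε : ℝ, 0 < ε → ∀ᶠ N in atTop, (κ - ε) * Real.log (Real.log (t N)) ≤
    ∑ n ∈ (Finset.range N).filter (fun n => n ∈ S), (Real.log (Real.log (t (n + 1))) - Real.log (Real.log (t n)))

/-- for almost every `α > 0` the property `Q` holds for a proportion `κ` of the points `u n + α * t n`, and for a
proportion `κ` of the points `t n ^ α` -/
def Typical (t u : ℕ → ℝ) (κ : ℝ) (Q : ℝ → Prop) : Prop :=
  ∀ᵐ α : ℝ, 0 < α → LowerDensity t κ {n | Q (u n + α * t n)} ∧ LowerDensity t κ {n | Q (t n ^ α)}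

/-- up to `δ` the primes have a constant density `lam / log m` with `c₁ ≤ lam ≤ c₂` on `[m - D, m + D]` -/
def ConstantDensity (c₁ c₂ δ : ℝ) (m D : ℕ) : Prop :=
  ∃ lam : ℝ, c₁ ≤ lam ∧ lam ≤ c₂ ∧ ∀ u v : ℕ, m ≤ u + D → u ≤ v → v ≤ m + D →
    |(((Finset.Ioc u v).filter Nat.Prime).card : ℝ) - lam * ((v : ℝ) - u) / Real.log m| ≤
      δ * D / Real.log m

/-- the number of dyadic scales `2 ^ j` between `log m` and `m ^ θ` at which the primes do not have a constant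
density on `[m - 2 ^ j, m + 2 ^ j]` -/
noncomputable def badScales (c₁ c₂ δ θ : ℝ) (m : ℕ) : ℕ :=
  Set.ncard {j : ℕ | Real.log m ≤ (2 : ℝ) ^ j ∧ (2 : ℝ) ^ j ≤ (m : ℝ) ^ θ ∧ ¬ ConstantDensity c₁ c₂ δ m (2 ^ j)}

open Classical in
lemma bad_le (c₁ c₂ δ θ : ℝ) (m : ℕ) : badScales c₁ c₂ δ θ m ≤
    FewBadScales.badScales c₁ c₂ δ ⌊(m : ℝ) ^ θ⌋₊ m := by
  unfold badScales FewBadScales.badScales
  rw [← Set.ncard_coe_finset]
  apply Set.ncard_le_ncard _ (Finset.finite_toSet _)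
  rintro j ⟨h1, h2, h3⟩
  rw [mem_coe, mem_filter, mem_range]
  refine ⟨?_, h1, h3⟩
  apply Nat.lt_succ_of_le
  apply Nat.le_log_of_pow_le (by norm_num)
  apply Nat.le_floor
  push_cast
  exact h2

open Classical in
lemma density_of (t : ℕ → ℝ) (hmono : Monotone t) (h3 : ∀ n, 3 ≤ t n) (κ : ℝ) (P : ℕ → Prop) (x : ℕ → ℝ) (S : Set ℕ)
    (hS : ∀ n, P ⌊x n⌋₊ → n ∈ S)
    (h : ∀ ε : ℝ, 0 < ε → ∀ᶠ N in atTop, (κ - ε) * Real.log (Real.log (t N)) ≤
      ∑ n ∈ (range N).filter (fun n => P ⌊x n⌋₊), Pool.Agent.Helper855N.wt t n) : LowerDensity t κ S := by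
  intro ε hε
  filter_upwards [h ε hε] with N hN
  refine hN.trans ?_
  apply sum_le_sum_of_subset_of_nonneg
  · intro n hn
    rw [mem_filter] at hn ⊢
    exact ⟨hn.1, hS n hn.2⟩
  · intro n _ _
    exact Pool.Agent.Helper855N.wt_nonneg t hmono h3 n

open Classical in
lemma typical_of (P : ℕ → Prop) (θ ω κ : ℝ) (hθ0 : 0 < θ) (hθω : θ < ω) (hω : ω ≤ 1) (hκ0 : 0 ≤ κ)
    (hP : Pool.Agent.Helper855N.Dense P θ κ) (Q : ℝ → Prop) (hQ : ∀ x : ℝ, 0 < x → P ⌊x⌋₊ → Q x)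
    (t u : ℕ → ℝ) (ht : Admissible ω t u) : Typical t u κ Q := by
  obtain ⟨β, hβ⟩ := ht.step
  have h1 := Pool.Agent.Helper855N.metric_affine P θ ω κ hθ0 hθω hω hκ0 hP t u ht.mono ht.three ht.top β hβ
    ht.nonneg ht.small
  have h2 := Pool.Agent.Helper855N.metric_power P θ κ hθ0 (by linarith) hκ0 hP t ht.mono ht.three ht.top β hβ
  unfold Typical
  filter_upwards [h1, h2] with α hα1 hα2 hα0
  constructor
  · refine density_of t ht.mono ht.three κ P (fun n => u n + α * t n) _ (fun n hn => hQ _ ?_ hn) (hα1 hα0)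
    have := mul_pos hα0 (show 0 < t n by linarith [ht.three n])
    linarith [ht.nonneg n]
  · refine density_of t ht.mono ht.three κ P (fun n => t n ^ α) _ (fun n hn => hQ _ ?_ hn) (hα2 hα0)
    exact Real.rpow_pos_of_pos (by linarith [ht.three n]) _

/-- **Primes in short intervals: a metric theorem.** -/
theorem result (θ : ℝ) (h0 : 0 < θ) (h1 : θ < 1) :
    (∀ ω : ℝ, θ < ω → ω ≤ 1 → ∀ η : ℝ, 0 < η → η < 1 → ∃ Λ : ℝ, ∀ δ : ℝ, 0 < δ → ∃ K : ℕ,
      ∀ t u : ℕ → ℝ, Admissible ω t u → Typical t u (1 - η) (fun x => badScales 0 Λ δ θ ⌊x⌋₊ ≤ K)) ∧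
    (∃ ω c₁ c₂ κ : ℝ, ω < 1 ∧ 0 < c₁ ∧ 0 < c₂ ∧ 0 < κ ∧
      (∀ δ : ℝ, 0 < δ → ∃ K : ℕ,
        ∀ t u : ℕ → ℝ, Admissible ω t u → Typical t u κ (fun x => badScales c₁ c₂ δ θ ⌊x⌋₊ ≤ K)) ∧
      (∃ c C L : ℝ, 0 < c ∧
        ∀ t u : ℕ → ℝ, Admissible ω t u → Typical t u κ (fun x => ∀ H : ℝ, L * Real.log x ≤ H → H ≤ x ^ θ →
          c * (H / Real.log x) ≤ primesAfter x H ∧ (primesAfter x H : ℝ) ≤ C * (H / Real.log x)))) := by
  refine ⟨fun ω hω1 hω2 η hη hη1 => ?_, ?_⟩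
  · obtain ⟨Λ, hΛ⟩ := Pool.Agent.Helper855N.few_all θ ((θ + ω) / 2) h0 h1 (by linarith) (by linarith) η hη
    refine ⟨Λ, fun δ hδ => ?_⟩
    obtain ⟨K, hK⟩ := hΛ δ hδ
    refine ⟨K, fun t u ht => ?_⟩
    exact typical_of (Pool.Agent.Helper855N.FewB 0 Λ δ θ K 0) ((θ + ω) / 2) ω (1 - η) (by linarith) (by linarith)
      hω2 (by linarith) hK _ (fun x _ hx => (bad_le 0 Λ δ θ _).trans hx.2) t u ht
  · have h2 : 0 < (1 + θ) / 2 := by linarith
    have h3 : (1 + θ) / 2 < 1 := by linarith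
    obtain ⟨θ', c₁, c₂, κ, h4, h5, hc₁, hc₂, hκ, hpos⟩ := Pool.Agent.Helper855N.few_pos ((1 + θ) / 2) h2 h3
    refine ⟨(1 + θ') / 2, c₁, c₂, κ, by linarith, hc₁, hc₂, hκ, fun δ hδ => ?_, ?_⟩
    · obtain ⟨K, hK⟩ := hpos δ hδ
      refine ⟨K, fun t u ht => ?_⟩
      refine typical_of (Pool.Agent.Helper855N.FewB c₁ c₂ δ ((1 + θ) / 2) K 1) θ' ((1 + θ') / 2) κ h4 (by linarith)
        (by linarith) hκ.le (hK 1) _ (fun x _ hx => ?_) t u ht
      obtain ⟨hn1, hn2⟩ := hx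
      refine (bad_le c₁ c₂ δ θ _).trans (le_trans ?_ hn2)
      apply Pool.Agent.Helper855N.bad_mono
      apply Nat.floor_le_floor
      apply Real.rpow_le_rpow_of_exponent_le _ (by linarith)
      exact_mod_cast hn1
    · obtain ⟨K, hK⟩ := hpos (c₁ / 2) (by positivity)
      obtain ⟨M₀, hM₀⟩ := Pool.Agent.Helper855N.order θ h0 h1 c₁ c₂ hc₁ hc₂ K
      refine ⟨c₁ / 2 ^ (K + 2), (c₁ + c₂) * 2 ^ (K + 3), 2 ^ (K + 1), by positivity, fun t u ht => ?_⟩
      exact typical_of (Pool.Agent.Helper855N.FewB c₁ c₂ (c₁ / 2) ((1 + θ) / 2) K M₀) θ' ((1 + θ') / 2) κ h4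
        (by linarith) (by linarith) hκ.le (hK M₀) _ (fun x hx0 hx => hM₀ x hx0 hx.1 hx.2) t u ht

end Pool.Agent.Results.MP_31d0eb_nt.AlmostEveryDilate
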