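import Pool.Agent.helper24_UT.Ch9

set_option autoImplicit false

/-!
# Averages of `π(x, H) log x / H` over the points of translates `𝒜 + b` of arbitrary dense sets, `b` in a SHORT window

Let `ε, δ > 0` and `C` be fixed, let `N` be large and let `𝒜` be an ARBITRARY set of at least `N / (log N) ^ C` integers in
`[1, N]`. In every window `(c, c + W]` with `N ^ (1 / 3 + ε) ≤ W ≤ N` and `c ≤ C N` all but at most `W / (log N) ^ C` of the
integers `b` have the following property: for ALL real `H` with `(log N) ^ K ≤ H ≤ N` the average of `π(x, H) log x / H` over the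
points `x = a + b`, `a ∈ 𝒜`, differs from `1` by at most `δ`; `K` depends on `ε`, `δ` and `C` alone. (The starting file
`TranslatesOfSets` has `b` in the long interval `[1, N]`.)

Proof. The differences `D` of the primes and their sieve model satisfy
`∑_{x ≤ X} |∑_{x < m ≤ x + K} D(m) e(m α)| ^ 2 ≤ X K ^ 2 / (log X) ^ A` uniformly in `α`, for `K ≥ X ^ (1 / 3 + ε)`
(`Pool.Agent.helper24_UT.Ch.t_MK`; identity of Heath-Brown, Type II sums and divisor sums on the minor arcs, mean values of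
Dirichlet polynomials, van der Corput's estimate and a bound of the type of Vinogradov and Korobov on the major arcs; the
method of Mikawa). This bounds the sums `∑ w(n) D(n + b)` with arbitrary weights `w` in mean square over `b` in a short
window. The weight is the number of `a ∈ 𝒜` with `a < n ≤ a + H`, the sums of the model are elementary.
-/

namespace Pool.Agent.Results.MP_31d0eb_nt.ShortWindowsOfTranslates

open Finset

/-- `π(x, H)`, the number of the primes `p` with `x < p ≤ x + H` -/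
noncomputable def primes (x : ℕ) (H : ℝ) : ℕ := ((Ioc x (x + ⌊H⌋₊)).filter Nat.Prime).card

/-- For all real `H` between `(log N) ^ K` and `N` the average of `π(x, H) log x / H` over the points `x = a + b`, `a ∈ 𝒜`,
differs from `1` by at most `δ`. -/
def Holds (δ : ℝ) (K N : ℕ) (𝒜 : Finset ℕ) (b : ℕ) : Prop :=
  ∀ H : ℝ, (Real.log N) ^ K ≤ H → H ≤ N →
    |(∑ a ∈ 𝒜, primes (a + b) H * Real.log ((a + b : ℕ) : ℝ) / H) / 𝒜.card - 1| ≤ δ

/-- properties of large numbers -/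
lemma large (C : ℕ) (η : ℝ) (hη : 0 < η) : ∃ N₁ : ℕ, ∀ N : ℕ, N₁ ≤ N → 1 ≤ Real.log N ∧ 1 / η ≤ Real.log N ∧
    (C + 2 : ℝ) * Real.log (Real.log N) ≤ η * Real.log N ∧ Real.log (C + 2) ≤ η * Real.log N := by
  have hlog : Filter.Tendsto (fun N : ℕ => Real.log (N : ℝ)) Filter.atTop Filter.atTop :=
    Real.tendsto_log_atTop.comp tendsto_natCast_atTop_atTop
  have h1 : ∀ᶠ N : ℕ in Filter.atTop, max (max 1 (1 / η)) (Real.log (C + 2) / η) ≤ Real.log N := hlog.eventually_ge_atTop _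
  have h3 : ∀ᶠ x : ℝ in Filter.atTop, ‖Real.log x‖ ≤ η / (C + 2 : ℝ) * ‖x‖ :=
    (Real.isLittleO_log_id_atTop).bound (by positivity)
  have h3' := hlog.eventually h3
  obtain ⟨N₁, hN₁⟩ := Filter.eventually_atTop.1 (h1.and h3')
  refine ⟨N₁, fun N hN => ?_⟩
  obtain ⟨g1, g3⟩ := hN₁ N hN
  have g11 := ((le_max_left _ _).trans (le_max_left _ _)).trans g1
  have g12 := ((le_max_right _ _).trans (le_max_left _ _)).trans g1
  have g13 := (le_max_right _ _).trans g1
  refine ⟨g11, g12, ?_, ?_⟩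
  · rw [Real.norm_eq_abs, Real.norm_eq_abs, abs_of_pos (by linarith : (0 : ℝ) < Real.log N)] at g3
    have g4 := (le_abs_self _).trans g3
    rw [div_mul_eq_mul_div, le_div_iff₀ (by positivity)] at g4
    linarith
  · rw [div_le_iff₀ hη] at g13
    linarith

/-- replacing `log N` by `log (a + b)` and `⌊H⌋` by `H` -/
lemma convert_avg {N C b : ℕ} {𝒜 : Finset ℕ} {η H : ℝ} {P : ℕ → ℝ} (hN : 1 ≤ N) (hη : 0 < η) (hη1 : η ≤ 1 / 10)
    (hL1 : 1 ≤ Real.log N) (hL2 : 1 / η ≤ Real.log N) (hL3 : (C + 2 : ℝ) * Real.log (Real.log N) ≤ η * Real.log N)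
    (hL4 : Real.log (C + 2) ≤ η * Real.log N) (hA : 𝒜 ⊆ Icc 1 N) (hAc : (N : ℝ) ≤ 𝒜.card * (Real.log N) ^ C)
    (hb : b ≤ (C + 1) * N) (hH : Real.log N ≤ H) (hP : ∀ a ∈ 𝒜, 0 ≤ P a ∧ P a ≤ ⌊H⌋₊)
    (h : |(∑ a ∈ 𝒜, P a) * Real.log N - 𝒜.card * ⌊H⌋₊| ≤ η * (𝒜.card * ⌊H⌋₊)) :
    |(∑ a ∈ 𝒜, P a * Real.log ((a + b : ℕ) : ℝ) / H) / 𝒜.card - 1| ≤ 5 * η := by
  classical
  set L := Real.log N with hLdef
  set y : ℝ := (⌊H⌋₊ : ℝ) with hydef
  have hLp : 0 < L := by linarith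
  have hNr : (1 : ℝ) ≤ N := by exact_mod_cast hN
  have hH0 : 0 < H := by linarith
  have hy0 : 0 ≤ y := Nat.cast_nonneg _
  have hyH : y ≤ H := Nat.floor_le hH0.le
  have hHy : H < y + 1 := Nat.lt_floor_add_one H
  have hcard : (0 : ℝ) < 𝒜.card := by
    by_contra hcon
    have h0 : (𝒜.card : ℝ) = 0 := le_antisymm (not_lt.1 hcon) (Nat.cast_nonneg _)
    rw [h0, zero_mul] at hAc
    linarith
  -- the logarithms
  have hlogup : ∀ a ∈ 𝒜, Real.log ((a + b : ℕ) : ℝ) ≤ (1 + η) * L := by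
    intro a ha
    have ha' := mem_Icc.1 (hA ha)
    have h1 : ((a + b : ℕ) : ℝ) ≤ (C + 2) * N := by
      have : a + b ≤ (C + 2) * N := by nlinarith
      exact_mod_cast this
    have h2 : (0 : ℝ) < ((a + b : ℕ) : ℝ) := by exact_mod_cast (by omega : 0 < a + b)
    calc Real.log ((a + b : ℕ) : ℝ) ≤ Real.log ((C + 2) * N) := Real.log_le_log h2 h1
      _ = Real.log (C + 2) + L := by rw [Real.log_mul (by positivity) (by positivity)]
      _ ≤ _ := by linarith
  have hlogdown : ∀ a ∈ 𝒜, (N : ℝ) / L ^ (C + 2) ≤ a → (1 - η) * L ≤ Real.log ((a + b : ℕ) : ℝ) := by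
    intro a ha haT
    have h1 : (N : ℝ) / L ^ (C + 2) ≤ ((a + b : ℕ) : ℝ) := by
      refine haT.trans ?_
      exact_mod_cast Nat.le_add_right a b
    have h2 : Real.log ((N : ℝ) / L ^ (C + 2)) ≤ Real.log ((a + b : ℕ) : ℝ) := Real.log_le_log (by positivity) h1
    rw [Real.log_div (by positivity) (by positivity), Real.log_pow, Nat.cast_add C 2, Nat.cast_ofNat] at h2
    linarith
  have hlog0 : ∀ a ∈ 𝒜, 0 ≤ Real.log ((a + b : ℕ) : ℝ) := by
    intro a ha
    have ha' := mem_Icc.1 (hA ha)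
    apply Real.log_nonneg
    exact_mod_cast (by omega : 1 ≤ a + b)
  -- the small `a`
  have hsmall : ((𝒜.filter (fun a : ℕ => (a : ℝ) < (N : ℝ) / L ^ (C + 2))).card : ℝ) * L ≤ η * 𝒜.card := by
    have h1 : ((𝒜.filter (fun a : ℕ => (a : ℝ) < (N : ℝ) / L ^ (C + 2))).card : ℝ) ≤ (N : ℝ) / L ^ (C + 2) := by
      have h2 : 𝒜.filter (fun a : ℕ => (a : ℝ) < (N : ℝ) / L ^ (C + 2)) ⊆ Icc 1 ⌊(N : ℝ) / L ^ (C + 2)⌋₊ := by
        intro a ha
        rw [mem_filter] at ha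
        have ha' := mem_Icc.1 (hA ha.1)
        rw [mem_Icc]
        exact ⟨ha'.1, Nat.le_floor ha.2.le⟩
      have h3 := card_le_card h2
      rw [Nat.card_Icc, Nat.add_sub_cancel] at h3
      exact (Nat.cast_le.2 h3).trans (Nat.floor_le (by positivity))
    calc ((𝒜.filter (fun a : ℕ => (a : ℝ) < (N : ℝ) / L ^ (C + 2))).card : ℝ) * L ≤ (N : ℝ) / L ^ (C + 2) * L :=
          mul_le_mul_of_nonneg_right h1 hLp.le
      _ ≤ (𝒜.card * L ^ C) / L ^ (C + 2) * L := by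
          apply mul_le_mul_of_nonneg_right _ hLp.le
          exact div_le_div_of_nonneg_right hAc (by positivity)
      _ = (1 / L) * 𝒜.card := by
          rw [pow_add]
          field_simp
      _ ≤ η * 𝒜.card := by
          apply mul_le_mul_of_nonneg_right _ hcard.le
          rw [div_le_iff₀ hLp]
          rw [div_le_iff₀ hη] at hL2
          linarith
  -- the change of the logarithm
  have hchange : |∑ a ∈ 𝒜, P a * Real.log ((a + b : ℕ) : ℝ) - (∑ a ∈ 𝒜, P a) * L| ≤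
      η * ((∑ a ∈ 𝒜, P a) * L) + η * (𝒜.card * y) := by
    rw [sum_mul, ← sum_sub_distrib]
    refine (abs_sum_le_sum_abs _ _).trans ?_
    have h1 : ∀ a ∈ 𝒜, |P a * Real.log ((a + b : ℕ) : ℝ) - P a * L| ≤
        η * (P a * L) + (if (a : ℝ) < (N : ℝ) / L ^ (C + 2) then y * L else 0) := by
      intro a ha
      obtain ⟨hP0, hP1⟩ := hP a ha
      rw [← mul_sub, abs_mul, abs_of_nonneg hP0]
      have hup := hlogup a ha
      split_ifs with hT
      · have h2 : |Real.log ((a + b : ℕ) : ℝ) - L| ≤ L := by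
          rw [abs_le]
          have := hlog0 a ha
          constructor <;> nlinarith
        calc P a * |Real.log ((a + b : ℕ) : ℝ) - L| ≤ y * L := mul_le_mul hP1 h2 (abs_nonneg _) hy0
          _ ≤ _ := by
            have : 0 ≤ η * (P a * L) := by positivity
            linarith
      · have h2 : |Real.log ((a + b : ℕ) : ℝ) - L| ≤ η * L := by
          rw [abs_le]
          have := hlogdown a ha (not_lt.1 hT)
          constructor <;> linarith
        calc P a * |Real.log ((a + b : ℕ) : ℝ) - L| ≤ P a * (η * L) := mul_le_mul_of_nonneg_left h2 hP0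
          _ = _ := by ring
    refine (sum_le_sum h1).trans ?_
    rw [sum_add_distrib, ← mul_sum, ← sum_mul, ← sum_filter, sum_const, nsmul_eq_mul]
    have h3 : ((𝒜.filter (fun a : ℕ => (a : ℝ) < (N : ℝ) / L ^ (C + 2))).card : ℝ) * (y * L) ≤ η * (𝒜.card * y) := by
      calc ((𝒜.filter (fun a : ℕ => (a : ℝ) < (N : ℝ) / L ^ (C + 2))).card : ℝ) * (y * L) =
          (((𝒜.filter (fun a : ℕ => (a : ℝ) < (N : ℝ) / L ^ (C + 2))).card : ℝ) * L) * y := by ring
        _ ≤ (η * 𝒜.card) * y := mul_le_mul_of_nonneg_right hsmall hy0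
        _ = _ := by ring
    linarith
  have hSL : (∑ a ∈ 𝒜, P a) * L ≤ (1 + η) * (𝒜.card * y) := by
    have := (abs_le.1 h).2
    linarith
  have hAy : 0 ≤ (𝒜.card : ℝ) * y := by positivity
  have htot : |∑ a ∈ 𝒜, P a * Real.log ((a + b : ℕ) : ℝ) - 𝒜.card * y| ≤ 4 * η * (𝒜.card * y) := by
    have h1 : |∑ a ∈ 𝒜, P a * Real.log ((a + b : ℕ) : ℝ) - 𝒜.card * y| ≤
        |∑ a ∈ 𝒜, P a * Real.log ((a + b : ℕ) : ℝ) - (∑ a ∈ 𝒜, P a) * L| + |(∑ a ∈ 𝒜, P a) * L - 𝒜.card * y| := by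
      have := abs_add_le (∑ a ∈ 𝒜, P a * Real.log ((a + b : ℕ) : ℝ) - (∑ a ∈ 𝒜, P a) * L) ((∑ a ∈ 𝒜, P a) * L - 𝒜.card * y)
      rwa [sub_add_sub_cancel] at this
    have h2 : η * ((∑ a ∈ 𝒜, P a) * L) ≤ η * ((1 + η) * (𝒜.card * y)) := mul_le_mul_of_nonneg_left hSL hη.le
    have h3 : η * ((1 + η) * (𝒜.card * y)) ≤ η * (2 * (𝒜.card * y)) := by
      apply mul_le_mul_of_nonneg_left _ hη.le
      exact mul_le_mul_of_nonneg_right (by linarith) hAy
    linarith
  -- the passage to `H`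
  have hid : (∑ a ∈ 𝒜, P a * Real.log ((a + b : ℕ) : ℝ) / H) / 𝒜.card - 1 =
      (∑ a ∈ 𝒜, P a * Real.log ((a + b : ℕ) : ℝ) - 𝒜.card * H) / (𝒜.card * H) := by
    rw [← sum_div]
    field_simp
  rw [hid, abs_div, abs_of_pos (by positivity : (0 : ℝ) < 𝒜.card * H), div_le_iff₀ (by positivity)]
  have h4 : |∑ a ∈ 𝒜, P a * Real.log ((a + b : ℕ) : ℝ) - 𝒜.card * H| ≤
      |∑ a ∈ 𝒜, P a * Real.log ((a + b : ℕ) : ℝ) - 𝒜.card * y| + |𝒜.card * y - 𝒜.card * H| := by
    have := abs_add_le (∑ a ∈ 𝒜, P a * Real.log ((a + b : ℕ) : ℝ) - 𝒜.card * y) (𝒜.card * y - 𝒜.card * H)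
    rwa [sub_add_sub_cancel] at this
  have h5 : |(𝒜.card : ℝ) * y - 𝒜.card * H| ≤ 𝒜.card := by
    rw [← mul_sub, abs_mul, abs_of_pos hcard]
    calc (𝒜.card : ℝ) * |y - H| ≤ 𝒜.card * 1 := by
          apply mul_le_mul_of_nonneg_left _ hcard.le
          rw [abs_le]
          constructor <;> linarith
      _ = _ := mul_one _
  have h6 : (𝒜.card : ℝ) ≤ η * (𝒜.card * H) := by
    have h7 : 1 ≤ η * H := by
      have : 1 / η ≤ H := hL2.trans hH
      rw [div_le_iff₀ hη] at this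
      linarith
    calc (𝒜.card : ℝ) = 1 * 𝒜.card := (one_mul _).symm
      _ ≤ (η * H) * 𝒜.card := mul_le_mul_of_nonneg_right h7 hcard.le
      _ = _ := by ring
  have h8 : 4 * η * (𝒜.card * y) ≤ 4 * η * (𝒜.card * H) := by
    apply mul_le_mul_of_nonneg_left _ (by positivity)
    exact mul_le_mul_of_nonneg_left hyH hcard.le
  linarith

open Classical in
/-- **Primes close to the points of the translates of arbitrary dense sets, short windows of translates.** -/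
theorem result (ε δ : ℝ) (C : ℕ) (hε : 0 < ε) (hδ : 0 < δ) : ∃ K N₀ : ℕ, ∀ N : ℕ, N₀ ≤ N → ∀ 𝒜 : Finset ℕ, 𝒜 ⊆ Icc 1 N →
    (N : ℝ) / (Real.log N) ^ C ≤ 𝒜.card → ∀ W : ℕ, (N : ℝ) ^ (1 / 3 + ε) ≤ W → W ≤ N → ∀ c : ℕ, c ≤ C * N →
      (((Ioc c (c + W)).filter (fun b => ¬ Holds δ K N 𝒜 b)).card : ℝ) ≤ (W : ℝ) / (Real.log N) ^ C := by
  obtain ⟨e, he⟩ := exists_nat_gt (1 / ε)
  have he1 : 1 ≤ e := by
    have h1 : 0 < 1 / ε := by positivity
    have h2 : (0 : ℝ) < e := h1.trans he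
    exact_mod_cast h2
  have he0 : (0 : ℝ) < e := by exact_mod_cast he1
  have hle : 1 / (e : ℝ) ≤ ε := by
    rw [div_le_iff₀ he0]
    rw [div_lt_iff₀ hε] at he
    linarith
  obtain ⟨η, hη0, hη1, hη2⟩ : ∃ η : ℝ, 0 < η ∧ η ≤ 1 / 10 ∧ 5 * η ≤ δ := by
    refine ⟨min (1 / 10) (δ / 5), lt_min (by norm_num) (by linarith), min_le_left _ _, ?_⟩
    have := min_le_right (1 / 10) (δ / 5)
    linarith
  obtain ⟨K, N₀, h⟩ := Pool.Agent.helper24_UT.Ch.t_R17 e C η he1 hη0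
  obtain ⟨N₁, hN₁⟩ := large C η hη0
  refine ⟨K + 2, max (max N₀ N₁) 1, fun N hN 𝒜 hA hAN W hW1 hW2 c hc => ?_⟩
  have hN1' : 1 ≤ N := (le_max_right _ _).trans hN
  have hN1 : (1 : ℝ) ≤ N := by exact_mod_cast hN1'
  obtain ⟨hL1, hL2, hL3, hL4⟩ := hN₁ N (((le_max_right _ _).trans (le_max_left _ _)).trans hN)
  have hLp : 0 < Real.log N := by linarith
  have hpow : (N : ℝ) ^ (1 / 3 + 1 / e : ℝ) ≤ W := by
    refine le_trans ?_ hW1
    apply Real.rpow_le_rpow_of_exponent_le hN1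
    linarith
  have hAN' : (N : ℝ) ≤ 𝒜.card * (Real.log N) ^ C := by
    rw [div_le_iff₀ (by positivity)] at hAN
    exact hAN
  refine le_trans ?_ (h N (((le_max_left _ _).trans (le_max_left _ _)).trans hN) W hpow hW2 c hc 𝒜 hA hAN')
  refine Nat.cast_le.2 (card_le_card fun b hb => ?_)
  have hb := mem_filter.1 hb
  refine mem_filter.2 ⟨hb.1, fun hg => hb.2 ?_⟩
  intro H hH1 hH2
  have hb1 := mem_Ioc.1 hb.1
  have hLH : Real.log N ≤ H := by
    refine le_trans ?_ hH1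
    calc Real.log N = Real.log N ^ 1 := (pow_one _).symm
      _ ≤ Real.log N ^ (K + 2) := pow_le_pow_right₀ hL1 (by omega)
  have hH0 : 0 ≤ H := by linarith
  have hy1 : (Real.log N) ^ K ≤ (⌊H⌋₊ : ℝ) := by
    have h1 : H < ⌊H⌋₊ + 1 := Nat.lt_floor_add_one H
    have h2 : (Real.log N) ^ K + 1 ≤ (Real.log N) ^ (K + 2) := by
      have h10 : 10 ≤ Real.log N := by
        refine le_trans ?_ hL2
        rw [le_div_iff₀ hη0]
        linarith
      have h3 : 1 ≤ Real.log N ^ K := one_le_pow₀ hL1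
      have h4 : 2 ≤ Real.log N ^ 2 := by nlinarith
      calc Real.log N ^ K + 1 ≤ Real.log N ^ K + Real.log N ^ K := by linarith
        _ = Real.log N ^ K * 2 := by ring
        _ ≤ Real.log N ^ K * Real.log N ^ 2 := mul_le_mul_of_nonneg_left h4 (by linarith)
        _ = _ := by rw [pow_add]
    linarith
  have hy2 : ⌊H⌋₊ ≤ N := by
    have := Nat.floor_mono hH2
    rwa [Nat.floor_natCast] at this
  have h3 := hg ⌊H⌋₊ hy1 hy2
  have hbC : b ≤ (C + 1) * N := by nlinarith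
  refine le_trans ?_ hη2
  refine convert_avg hN1' hη0 hη1 hL1 hL2 hL3 hL4 hA hAN' hbC hLH ?_ h3
  intro a _
  refine ⟨Nat.cast_nonneg _, ?_⟩
  rw [Nat.cast_le]
  refine (card_filter_le _ _).trans ?_
  rw [Nat.card_Ioc, Nat.add_sub_cancel_left]

end Pool.Agent.Results.MP_31d0eb_nt.ShortWindowsOfTranslates
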