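import Pool.Agent.helper24_UT.Ch16

set_option autoImplicit false

/-!
# Primes in almost all short intervals `(u_j, u_j + K]` with well spaced, but otherwise ARBITRARY left ends, in all residue classes to all moduli

Let `ε > 0`, `A` and `C` be fixed, let `X` be large and `X ^ (1 / 3 + ε) ≤ K ≤ X`. Let `u_1, ..., u_M` be ANY points in `[0, X]`, at most `(log X) ^ C` of them
in any interval of length `K`, with `M K ≥ X / (log X) ^ C` (for instance `K`-separated points in positive proportion, or the points `n ^ d` with `K = n ^ (d - 1)`). For all but at most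
`M / (log X) ^ A` of the `j ≤ M`: the number of the primes in `(u_j, u_j + y]` is `∑_{u_j < m ≤ u_j + y} 1 / log m` up to `K / (log X) ^ A`, for all `y ≤ K`, and
the primes of `(u_j, u_j + K]` are equidistributed in the reduced classes in mean square over ALL moduli `q ≤ K exp (- B (log log X) ^ 2)`, i.e. almost up to the length
of the interval, with any saving of a power of the logarithm, the interval being cut off in every class at the most unfavourable place.

In other words: the set of the `x ≤ X` for which the interval `(x, x + K]` fails to have this property is covered by at most `X / (K (log X) ^ A)` intervals of length `K`.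

Proof. `∑_{x ≤ X} |∑_{x < m ≤ x + K} D(m) e(m α)| ^ 2 ≤ X K ^ 2 / (log X) ^ A` for the difference `D` of the primes and their sieve
model, uniformly in `α`, for `K ≥ X ^ (1 / 3 + ε)` (`Pool.Agent.helper24_UT.Ch.t_MK`, the method of Mikawa) and the large sieve
give the assertion for almost all intervals `(x, x + K]`; a short shift of the intervals gives it for the special intervals.
-/

namespace Pool.Agent.Results.MP_31d0eb_nt.WellSpacedPoints

open Finset

/-- the number of the primes `p ≡ r (mod q)` with `u < p ≤ u + y` (for `r < q`) -/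
def count (q r u y : ℕ) : ℕ := ((Ioc u (u + y)).filter (fun p => p.Prime ∧ p % q = r)).card

/-- `π(x, H)`: the number of the primes `p` with `x < p ≤ x + H` -/
def primesIn (x H : ℕ) : ℕ := ((Ioc x (x + H)).filter Nat.Prime).card

/-- `∑_{u < m ≤ u + y} 1 / log m` -/
noncomputable def logSum (u y : ℕ) : ℝ := ∑ m ∈ Ioc u (u + y), 1 / Real.log (m : ℝ)

/-- the points `u 1, ..., u M` of `[0, X]` are well spaced and not few, relative to the length `K` -/
def WellSpaced (C X K M : ℕ) (u : ℕ → ℕ) : Prop := (∀ j ∈ Icc 1 M, u j ≤ X) ∧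
  (∀ x : ℕ, (((Icc 1 M).filter (fun j => x ≤ u j ∧ u j < x + K)).card : ℝ) ≤ (Real.log X) ^ C) ∧
  (X : ℝ) ≤ M * K * (Real.log X) ^ C

/-- (1) the number of the primes in `(u, u + y]` for all `y ≤ K`; (2) for all `Q ≤ K exp (- B (log log X) ^ 2)` and all choices of the lengths
`y q r ≤ K` the sum, over all `q ≤ Q` and all reduced residues `r` modulo `q`, of the squares of `count q r u y - logSum u y / φ(q)`, `y = y q r`,
is at most `K ^ 2 / (log X) ^ A`; (3) if `X / (log X) ^ A ≤ u`, then `π(u, H) log u / H` differs from `1` by at most `δ` for all `H` with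
`K / (log X) ^ A ≤ H ≤ K`. -/
def Good (δ : ℝ) (A B X K u : ℕ) : Prop :=
  (∀ y : ℕ, y ≤ K → |(primesIn u y : ℝ) - logSum u y| ≤ K / (Real.log X) ^ A) ∧
  (∀ Q : ℕ, (Q : ℝ) ≤ K * Real.exp (-(B * Real.log (Real.log X) ^ 2)) → ∀ y : ℕ → ℕ → ℕ, (∀ q r, y q r ≤ K) →
    ∑ q ∈ Icc 1 Q, ∑ r ∈ (range q).filter (fun r => r.Coprime q),
      ((count q r u (y q r) : ℝ) - logSum u (y q r) / Nat.totient q) ^ 2 ≤ (K : ℝ) ^ 2 / (Real.log X) ^ A) ∧
  ((X : ℝ) / (Real.log X) ^ A ≤ u → ∀ H : ℕ, (K : ℝ) / (Real.log X) ^ A ≤ H → H ≤ K →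
    |(primesIn u H : ℝ) * Real.log u / H - 1| ≤ δ)

lemma count_eq (q r u y : ℕ) :
    (Pool.Agent.helper24_UT.pcl q r (u + y) : ℝ) - Pool.Agent.helper24_UT.pcl q r u = count q r u y := by
  unfold Pool.Agent.helper24_UT.pcl count
  have h1 : (Icc 1 (u + y)).filter (fun p => p.Prime ∧ p % q = r) =
      (Icc 1 u).filter (fun p => p.Prime ∧ p % q = r) ∪ (Ioc u (u + y)).filter (fun p => p.Prime ∧ p % q = r) := by
    ext p
    simp only [mem_union, mem_filter, mem_Icc, mem_Ioc]
    constructor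
    · rintro ⟨⟨h2, h3⟩, h4⟩
      rcases Nat.lt_or_ge u p with h5 | h5
      · exact Or.inr ⟨⟨h5, h3⟩, h4⟩
      · exact Or.inl ⟨⟨h2, h5⟩, h4⟩
    · rintro (⟨⟨h2, h3⟩, h4⟩ | ⟨⟨h2, h3⟩, h4⟩)
      · exact ⟨⟨h2, by omega⟩, h4⟩
      · exact ⟨⟨by omega, h3⟩, h4⟩
  have h2 : Disjoint ((Icc 1 u).filter (fun p => p.Prime ∧ p % q = r))
      ((Ioc u (u + y)).filter (fun p => p.Prime ∧ p % q = r)) := by
    rw [disjoint_left]
    intro p hp hp'
    rw [mem_filter, mem_Icc] at hp
    rw [mem_filter, mem_Ioc] at hp'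
    omega
  rw [h1, card_union_of_disjoint h2]
  push_cast
  ring

lemma primesIn_eq (u y : ℕ) : count 1 0 u y = primesIn u y := by
  unfold count primesIn
  congr 1
  apply filter_congr
  intro p _
  exact ⟨fun h => h.1, fun h => ⟨h, Nat.mod_one p⟩⟩

/-- the mean squares with the definitions of this file -/
lemma classes_of {A B X K u : ℕ} (h : Pool.Agent.helper24_UT.Good28 A B X K u) :
    ∀ Q : ℕ, (Q : ℝ) ≤ K * Real.exp (-(B * Real.log (Real.log X) ^ 2)) → ∀ y : ℕ → ℕ → ℕ, (∀ q r, y q r ≤ K) →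
    ∑ q ∈ Icc 1 Q, ∑ r ∈ (range q).filter (fun r => r.Coprime q),
      ((count q r u (y q r) : ℝ) - logSum u (y q r) / Nat.totient q) ^ 2 ≤ (K : ℝ) ^ 2 / (Real.log X) ^ A := by
  intro Q hQ y hy
  have h1 := h Q hQ y hy
  simp only [count_eq] at h1
  refine le_trans (le_of_eq ?_) h1
  apply sum_congr rfl
  intro q _
  apply sum_congr rfl
  intro r _
  unfold logSum
  congr 2
  ring

/-- the modulus `1` -/
lemma one_of {A B X K u : ℕ} (hB : (1 : ℝ) ≤ K * Real.exp (-(B * Real.log (Real.log X) ^ 2)))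
    (h : Pool.Agent.helper24_UT.Good28 (2 * A) B X K u) (hL : 0 < Real.log X) :
    ∀ y : ℕ, y ≤ K → |(primesIn u y : ℝ) - logSum u y| ≤ K / (Real.log X) ^ A := by
  intro y hy
  have h1 := classes_of h 1 (by rw [Nat.cast_one]; exact hB) (fun _ _ => y) (fun _ _ => hy)
  have e1 : (range 1).filter (fun r => r.Coprime 1) = {0} := by
    ext r
    simp
  rw [Icc_self, sum_singleton, e1, sum_singleton, Nat.totient_one, Nat.cast_one, div_one, primesIn_eq] at h1
  apply abs_le_of_sq_le_sq _ (by positivity)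
  rw [div_pow, ← pow_mul, mul_comm A 2]
  exact h1

/-- the passage to `π(x, H) log x / H` -/
lemma ratio (δ X K L π S : ℝ) (A u H : ℕ) (hL : 4 ≤ L) (hLX : L = Real.log X) (hX : 1 ≤ X) (hu : X / L ^ A ≤ u) (huX : (u : ℝ) ≤ X)
    (hu4 : (2 : ℝ) < u) (hHK : K / L ^ A ≤ H) (hK0 : 0 < K) (hKX : K ≤ X) (hH : (H : ℝ) ≤ K) (hδ : A * Real.log L + 2 ≤ δ * L)
    (h1 : |π - S| ≤ K / L ^ (2 * A + 2)) (hS : S = logSum u H) :
    |π * Real.log u / H - 1| ≤ δ := by
  have hL0 : 0 < L := by linarith
  have hX0 : 0 < X := by linarith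
  have hA0 : 0 < L ^ A := pow_pos hL0 A
  have hH0 : (0 : ℝ) < H := lt_of_lt_of_le (by positivity) hHK
  have hu0 : (0 : ℝ) < u := by linarith
  have hlu0 : 0 < Real.log u := Real.log_pos (by linarith)
  have hlu1 : Real.log u ≤ L := by
    rw [hLX]
    exact Real.log_le_log hu0 huX
  have hlu2 : L - A * Real.log L ≤ Real.log u := by
    have h2 := Real.log_le_log (by positivity) hu
    rw [Real.log_div hX0.ne' hA0.ne', Real.log_pow, ← hLX] at h2
    exact h2
  have hup : S ≤ H / Real.log u := by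
    rw [hS]
    unfold logSum
    have h2 : ∀ m ∈ Ioc u (u + H), 1 / Real.log (m : ℝ) ≤ 1 / Real.log u := by
      intro m hm
      have h3 : (u : ℝ) ≤ m := by exact_mod_cast (mem_Ioc.1 hm).1.le
      exact one_div_le_one_div_of_le hlu0 (Real.log_le_log hu0 h3)
    refine (sum_le_sum h2).trans (le_of_eq ?_)
    rw [sum_const, Nat.card_Ioc, Nat.add_sub_cancel_left, nsmul_eq_mul]
    ring
  have hlow : H / (L + 1) ≤ S := by
    rw [hS]
    unfold logSum
    have h2 : ∀ m ∈ Ioc u (u + H), 1 / (L + 1) ≤ 1 / Real.log (m : ℝ) := by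
      intro m hm
      have h3 : (u : ℝ) < m := by exact_mod_cast (mem_Ioc.1 hm).1
      have h4 : (m : ℝ) ≤ u + H := by exact_mod_cast (mem_Ioc.1 hm).2
      have h5 : (m : ℝ) ≤ 2 * X := by linarith
      have h6 : 0 < Real.log m := Real.log_pos (by linarith)
      apply one_div_le_one_div_of_le h6
      have h7 := Real.log_le_log (by linarith) h5
      rw [Real.log_mul (by norm_num) hX0.ne', ← hLX] at h7
      have h8 := Real.log_two_lt_d9
      linarith
    refine le_trans (le_of_eq ?_) (sum_le_sum h2)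
    rw [sum_const, Nat.card_Ioc, Nat.add_sub_cancel_left, nsmul_eq_mul]
    ring
  have k1 : |S * Real.log u / H - 1| ≤ (A * Real.log L + 1) / L := by
    have hloglog : 0 ≤ Real.log L := Real.log_nonneg (by linarith)
    rw [abs_le]
    constructor
    · have h2 : Real.log u / (L + 1) ≤ S * Real.log u / H := by
        rw [div_le_div_iff₀ (by linarith) hH0]
        have h3 : (H : ℝ) ≤ S * (L + 1) := by
          rwa [div_le_iff₀ (by linarith)] at hlow
        nlinarith
      have h4 : 1 - (A * Real.log L + 1) / L ≤ Real.log u / (L + 1) := by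
        rw [le_div_iff₀ (by linarith)]
        have h5 : (1 - (A * Real.log L + 1) / L) * (L + 1) = (L - A * Real.log L) - (A * Real.log L + 1) / L := by
          field_simp
          ring
        rw [h5]
        have h6 : 0 ≤ (A * Real.log L + 1) / L := by positivity
        linarith
      linarith
    · have h2 : S * Real.log u / H ≤ 1 := by
        rw [div_le_one hH0]
        have h3 := mul_le_mul_of_nonneg_right hup hlu0.le
        rwa [div_mul_cancel₀ _ hlu0.ne'] at h3
      have h6 : 0 ≤ (A * Real.log L + 1) / L := by positivity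
      linarith
  have k2 : |(π - S) * Real.log u / H| ≤ 1 / L := by
    rw [abs_div, abs_mul, abs_of_pos hlu0, abs_of_pos hH0, div_le_iff₀ hH0]
    have h2 : K ≤ H * L ^ A := by rwa [div_le_iff₀ hA0] at hHK
    have h3 : K / L ^ (2 * A + 2) ≤ H / L ^ 2 := by
      rw [div_le_div_iff₀ (by positivity) (by positivity)]
      calc K * L ^ 2 ≤ (H * L ^ A) * L ^ 2 := mul_le_mul_of_nonneg_right h2 (by positivity)
        _ = H * L ^ (A + 2) := by rw [pow_add]; ring
        _ ≤ H * L ^ (2 * A + 2) := mul_le_mul_of_nonneg_left (pow_le_pow_right₀ (by linarith) (by omega)) hH0.le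
    calc |π - S| * Real.log u ≤ (H / L ^ 2) * L :=
          mul_le_mul (h1.trans h3) hlu1 hlu0.le (by positivity)
      _ = 1 / L * H := by
          field_simp
  have k3 : π * Real.log u / H - 1 = (π - S) * Real.log u / H + (S * Real.log u / H - 1) := by ring
  rw [k3]
  refine (abs_add_le _ _).trans ((add_le_add k2 k1).trans ?_)
  rw [← add_div, div_le_iff₀ hL0]
  linarith

lemma large (δ : ℝ) (hδ : 0 < δ) (A B : ℕ) : ∃ X₀ : ℕ, ∀ X : ℕ, X₀ ≤ X →
    4 ≤ Real.log X ∧ A * Real.log (Real.log X) + 2 ≤ δ * Real.log X ∧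
    B * Real.log (Real.log X) ^ 2 ≤ 1 / 3 * Real.log X := by
  have hlog : Filter.Tendsto (fun N : ℕ => Real.log (N : ℝ)) Filter.atTop Filter.atTop :=
    Real.tendsto_log_atTop.comp tendsto_natCast_atTop_atTop
  have h1 := (Real.isLittleO_pow_log_id_atTop (n := 1)).bound (show (0 : ℝ) < δ / (2 * (A + 1)) by positivity)
  have h2 := (Real.isLittleO_pow_log_id_atTop (n := 2)).bound (show (0 : ℝ) < 1 / (3 * (B + 1)) by positivity)
  obtain ⟨X₀, h⟩ := Filter.eventually_atTop.1 ((hlog.eventually h1).and ((hlog.eventually h2).and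
    ((hlog.eventually_ge_atTop 4).and (hlog.eventually_ge_atTop (4 / δ)))))
  refine ⟨X₀, fun X hX => ?_⟩
  obtain ⟨k1, k2, k3, k4⟩ := h X hX
  set L := Real.log (X : ℝ) with hL
  have hL0 : 0 < L := by linarith
  have hll : 0 ≤ Real.log L := Real.log_nonneg (by linarith)
  rw [pow_one, Real.norm_of_nonneg hll, id, Real.norm_of_nonneg hL0.le] at k1
  rw [Real.norm_of_nonneg (by positivity), id, Real.norm_of_nonneg hL0.le] at k2
  refine ⟨k3, ?_, ?_⟩
  · have h3 : (A : ℝ) * Real.log L ≤ δ * L / 2 := by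
      calc (A : ℝ) * Real.log L ≤ (A + 1) * (δ / (2 * (A + 1)) * L) :=
            mul_le_mul (by linarith) k1 hll (by positivity)
        _ = δ * L / 2 := by
            field_simp
    have h4 : 4 ≤ δ * L := by
      rw [div_le_iff₀ hδ] at k4
      linarith
    linarith
  · calc (B : ℝ) * Real.log L ^ 2 ≤ (B + 1) * (1 / (3 * (B + 1)) * L) :=
          mul_le_mul (by linarith) k2 (by positivity) (by positivity)
      _ = 1 / 3 * L := by
          field_simp

open Classical in
/-- **Primes in almost all intervals `(u_j, u_j + K]` with arbitrary well spaced left ends, in all classes to all moduli.** -/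
theorem result (ε δ : ℝ) (hε : 0 < ε) (hδ : 0 < δ) (A C : ℕ) : ∃ B X₀ : ℕ, ∀ X : ℕ, X₀ ≤ X → ∀ K : ℕ,
    (X : ℝ) ^ (1 / 3 + ε) ≤ K → K ≤ X → ∀ (M : ℕ) (u : ℕ → ℕ), WellSpaced C X K M u →
    (((Icc 1 M).filter (fun j => ¬ Good δ A B X K (u j))).card : ℝ) ≤ M / (Real.log X) ^ A := by
  obtain ⟨e, he⟩ := exists_nat_gt (1 / ε)
  have he0 : (0 : ℝ) < e := lt_trans (by positivity) he
  have he1 : 1 ≤ e := by exact_mod_cast he0
  have hle : 1 / (e : ℝ) ≤ ε := by
    rw [div_le_iff₀ he0]
    rw [div_lt_iff₀ hε] at he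
    linarith
  obtain ⟨B, X₁, h⟩ := Pool.Agent.helper24_UT.Ch.t_R28 e (2 * (2 * A + 2)) C he1
  obtain ⟨X₂, h2⟩ := large δ hδ A B
  have hpow := (Real.isLittleO_pow_log_id_atTop (n := A)).bound (show (0 : ℝ) < 1 / 3 by norm_num)
  obtain ⟨X₃, h3⟩ := Filter.eventually_atTop.1 ((tendsto_natCast_atTop_atTop (R := ℝ)).eventually hpow)
  refine ⟨B, X₁ + X₂ + X₃ + 2, fun X hX K hK1 hK2 M u hu => ?_⟩
  obtain ⟨hL4, hδL, hBL⟩ := h2 X (by omega)
  have hX0 : (0 : ℝ) < X := by
    have : 0 < X := by omega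
    exact_mod_cast this
  have h3 : 3 ≤ (X : ℝ) / Real.log X ^ A := by
    have h4 := h3 X (by omega)
    rw [Real.norm_of_nonneg (by positivity), id, Real.norm_of_nonneg hX0.le] at h4
    rw [le_div_iff₀ (by positivity)]
    linarith
  have hX1 : (1 : ℝ) ≤ X := by
    have : 1 ≤ X := by omega
    exact_mod_cast this
  have hL0 : 0 < Real.log X := by linarith
  have hK3 : (X : ℝ) ^ (1 / 3 : ℝ) ≤ K := (Real.rpow_le_rpow_of_exponent_le hX1 (by linarith)).trans hK1
  have hK0 : (0 : ℝ) < K := lt_of_lt_of_le (by positivity) hK3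
  have hB : (1 : ℝ) ≤ K * Real.exp (-(B * Real.log (Real.log X) ^ 2)) := by
    rw [Real.rpow_def_of_pos hX0] at hK3
    calc (1 : ℝ) = Real.exp (Real.log X * (1 / 3)) * Real.exp (-(Real.log X * (1 / 3))) := by
          rw [← Real.exp_add, add_neg_cancel, Real.exp_zero]
      _ ≤ K * Real.exp (-(B * Real.log (Real.log X) ^ 2)) := by
          apply mul_le_mul hK3 _ (Real.exp_pos _).le hK0.le
          apply Real.exp_le_exp.2
          linarith
  have key := h X (by omega) K ((Real.rpow_le_rpow_of_exponent_le hX1 (by linarith)).trans hK1) hK2 M u hu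
  refine le_trans (Nat.cast_le.2 (card_le_card ?_)) (key.trans ?_)
  · intro j hj
    rw [mem_filter] at hj ⊢
    refine ⟨hj.1, fun hg => hj.2 ?_⟩
    have hone := one_of (A := 2 * A + 2) hB hg hL0
    refine ⟨fun y hy => (hone y hy).trans ?_, fun Q hQ y hy => (classes_of hg Q hQ y hy).trans ?_, fun hu1 H hH1 hH2 => ?_⟩
    · apply div_le_div_of_nonneg_left hK0.le (by positivity)
      exact pow_le_pow_right₀ (by linarith) (by omega)
    · apply div_le_div_of_nonneg_left (by positivity) (by positivity)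
      exact pow_le_pow_right₀ (by linarith) (by omega)
    · refine ratio δ X K (Real.log X) _ (logSum (u j) H) A (u j) H hL4 rfl hX1 hu1 ?_ ?_ hH1 hK0 ?_ ?_ hδL (hone H hH2) rfl
      · exact_mod_cast hu.1 j hj.1
      · linarith
      · exact_mod_cast hK2
      · exact_mod_cast hH2
  · apply div_le_div_of_nonneg_left (Nat.cast_nonneg _) (by positivity)
    exact pow_le_pow_right₀ (by linarith) (by omega)

end Pool.Agent.Results.MP_31d0eb_nt.WellSpacedPoints
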